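import Mathlib
import Pool.Agent.H902.Planes

set_option autoImplicit false

/-!
# The planes spanned by the canonical class and the class of a pencil of rational curves

Let `X` be the blow-up of the complex projective plane at `n` very general points, let
`F = H - E p` be the class of the lines through one of them, `T` a set of `t ≥ 9` of the points
which contains `p`, and `K_T = -3 H + ∑_{i ∈ T} E i`.

* Every class of the plane spanned by `F` and `K_T` which lies in the positive cone is nef, as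
  predicted by Q1, and the same holds for its images under the reflections in the classes
  `H - E i - E j - E l`. In particular, for `n ≥ 10` and for every class `F` in the orbit of the
  classes `H - E p` (a class of a pencil of rational curves) the class `(n - 9) F - 4 K_X`, of
  self-intersection zero, is nef. For `F = H - E p` these are the rays
  `(m + 4) H - (m - 4) E p - 4 ∑ E i` (`m = n - 1 ≥ 9` other points), and on the blow-up of
  `ℙ¹ × ℙ¹` at `m` points the rays `(8, m; 4 ^ m)`.
* Dually, `4 K_X C ≤ (n - 9) F C` for every irreducible curve `C` on `X`.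
* The new rays can be composed with the starting ones (a coefficient may be replaced by the
  coefficients of a class of this kind), and with quadratic transformations, in any order.

Idea: let `C` be irreducible with `C ^ 2 = - k < 0`, `s = C F`, `w i = C E i`. For the roots
`E i - E j` and `F - E i - E j` of the root system `D_m` the intersection numbers with `C` are zero,
or at least `√k` in absolute value (starting library). So all `w i` (`i ≠ p`) are equal to `s / 2`, or
`∑ (w i - s / 2) ^ 2 ≥ k`. In the second case the projection of `C` to the plane of `F` and `K_T` has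
nonnegative self-intersection, and the claim follows. In the first case `C` is orthogonal to `D_m`,
and `C ^ 2 = w q < 0` for integers `w = w i` and `q`, so that `k ≥ w`, while `k < w` for `w ≥ 2`, by a
strict form of the inequality of Xu and Ein-Lazarsfeld (`Pool.Agent.H902.kss`).
-/

namespace Pool.Agent.Results.MP_309968_ag.PencilPlanes

open MvPolynomial

/-- The homogeneous ideal of the point `(a 0 : a 1 : 1)`. -/
noncomputable def pt (a : Fin 2 → ℂ) : Ideal (MvPolynomial (Fin 3) ℂ) :=
  Ideal.span {X 0 - C (a 0) * X 2, X 1 - C (a 1) * X 2}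

/-- The form `G` of degree `d` defines an irreducible curve with multiplicity exactly `w i` at the
point `P i` for all `i`: the strict transform has the class `d H - ∑ w i E i`. -/
structure Curve {n : ℕ} (P : Fin n → Fin 2 → ℂ) (G : MvPolynomial (Fin 3) ℂ) (d : ℕ)
    (w : Fin n → ℕ) : Prop where
  irreducible : Irreducible G
  homogeneous : G.IsHomogeneous d
  mult : ∀ i, G ∈ pt (P i) ^ (w i) ∧ G ∉ pt (P i) ^ (w i + 1)

/-- The class `d H - ∑ w i E i` of a plane curve, in the coordinates (degree, multiplicities). -/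
def cls {n : ℕ} (d : ℕ) (w : Fin n → ℕ) : ℝ × (Fin n → ℝ) := ((d : ℝ), fun i => (w i : ℝ))

/-- The classes of the irreducible curves on the blow-up: the strict transforms of the irreducible
plane curves, and the exceptional curves `E i`. -/
def curveClasses {n : ℕ} (P : Fin n → Fin 2 → ℂ) : Set (ℝ × (Fin n → ℝ)) :=
  {v | ∃ (G : MvPolynomial (Fin 3) ℂ) (d : ℕ) (w : Fin n → ℕ), Curve P G d w ∧ v = cls d w} ∪
  {v | ∃ i : Fin n, v = ((0 : ℝ), (Pi.single i (-1 : ℝ) : Fin n → ℝ))}

/-- The closed cone of curves. -/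
def curvCone {n : ℕ} (P : Fin n → Fin 2 → ℂ) : Set (ℝ × (Fin n → ℝ)) :=
  closure ((Submodule.span {c : ℝ // 0 ≤ c} (curveClasses P) : Set (ℝ × (Fin n → ℝ))))

/-- The intersection form. -/
def dot {n : ℕ} (a b : ℝ × (Fin n → ℝ)) : ℝ := a.1 * b.1 - ∑ l, a.2 l * b.2 l

/-- The intersection number with the canonical class. -/
def kap {n : ℕ} (a : ℝ × (Fin n → ℝ)) : ℝ := -3 * a.1 + ∑ l, a.2 l

/-- The reflection in the class `H - E (i 0) - E (i 1) - E (i 2)`. -/
def refl {n : ℕ} (i : Fin 3 → Fin n) (a : ℝ × (Fin n → ℝ)) : ℝ × (Fin n → ℝ) :=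
  (a.1 + (a.1 - a.2 (i 0) - a.2 (i 1) - a.2 (i 2)),
    fun l => a.2 l + if l = i 0 ∨ l = i 1 ∨ l = i 2 then a.1 - a.2 (i 0) - a.2 (i 1) - a.2 (i 2)
      else 0)

/-- Finitely many reflections carry the class `a` to `b`. -/
def Carries {n : ℕ} (a b : ℝ × (Fin n → ℝ)) : Prop :=
  Relation.ReflTransGen
    (fun a b : ℝ × (Fin n → ℝ) => ∃ i : Fin 3 → Fin n, Function.Injective i ∧ b = refl i a) a b

/-- The class `x F - y K_T`, where `F = H - E p` is the class of the lines through the point `p` and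
`-K_T = 3 H - ∑_{i ∈ T} E i`. -/
noncomputable def pl {n : ℕ} (T : Finset (Fin n)) (p : Fin n) (x y : ℝ) : ℝ × (Fin n → ℝ) :=
  (x + 3 * y, fun i => (if i = p then x else 0) + if i ∈ T then y else 0)

/-- `Sharp L c`: the class `c H - ∑ L_j E_j` is
* `H - E_1` (`line`),
* a class `3 a H - (a, …, a, x, …, x, 1, …, 1)` with `j ≤ 8` coefficients `a`, `k` coefficients `x` and
  `r` coefficients `1`, of self-intersection zero, with `0 < x ≤ a`, `k x ≤ (9 - j) a` and one of
  `x`, `a` an integer (`three`; for `j = k = 0` these are Nagata's classes, `r ≥ 9`); they are known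
  to be nef,
* a class `(m + 4) H - (m - 4) E_0 - 4 (E_1 + ... + E_m)`, `m ≥ 8` (`pencil`),
or it is obtained from these by permutations, by adding coefficients zero, by scaling, by replacing a
coefficient `w` by the coefficients of a class `w H - ∑ L'_j E_j` with `Sharp L' w` (`glue`), and by
quadratic transformations based at three points (`cremona`). -/
inductive Sharp : List ℝ → ℝ → Prop
  | line : Sharp [1] 1
  | three (j k r : ℕ) (a x : ℝ) : j ≤ 8 → 0 < x → x ≤ a → k * x ≤ (9 - j) * a →
      (9 - j) * a ^ 2 = k * x ^ 2 + r → ((∃ m : ℕ, x = m) ∨ (∃ m : ℕ, a = m)) →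
      Sharp (List.replicate j a ++ (List.replicate k x ++ List.replicate r 1)) (3 * a)
  | pencil (m : ℕ) : 8 ≤ m → Sharp (((m : ℝ) - 4) :: List.replicate m 4) ((m : ℝ) + 4)
  | perm (L L' : List ℝ) (c : ℝ) : L.Perm L' → Sharp L c → Sharp L' c
  | zero (L : List ℝ) (c : ℝ) : Sharp L c → Sharp (0 :: L) c
  | scale (a c : ℝ) (L : List ℝ) : 0 < a → Sharp L c → Sharp (L.map fun t => a * t) (a * c)
  | glue (c w : ℝ) (L L' : List ℝ) : 0 < w → Sharp (w :: L) c → Sharp L' w → Sharp (L' ++ L) c
  | cremona (x y z c : ℝ) (L : List ℝ) : Sharp (x :: y :: z :: L) c → 0 ≤ c - y - z →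
      0 ≤ c - x - z → 0 ≤ c - x - y →
      Sharp ((c - y - z) :: (c - x - z) :: (c - x - y) :: L) (2 * c - x - y - z)

/-- The class `c H - ∑ L_j E_{g j}`. -/
noncomputable def rayClass {n : ℕ} (L : List ℝ) (c : ℝ) (g : Fin L.length → Fin n) :
    ℝ × (Fin n → ℝ) := (c, fun i => ∑ j, if g j = i then L.get j else 0)

/-! ## Translation to the definitions of the library -/

theorem curve_iff {n : ℕ} {P : Fin n → Fin 2 → ℂ} {G : MvPolynomial (Fin 3) ℂ} {d : ℕ}
    {w : Fin n → ℕ} : Curve P G d w ↔ Pool.Agent.TH167.SHDefs.Curve P G d w :=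
  ⟨fun h => ⟨h.1, h.2, h.3⟩, fun h => ⟨h.1, h.2, h.3⟩⟩

theorem classes_eq {n : ℕ} (P : Fin n → Fin 2 → ℂ) :
    curveClasses P = Pool.Agent.R355.ConeAct.curveClasses P := by
  unfold curveClasses Pool.Agent.R355.ConeAct.curveClasses
  congr 1
  ext v
  constructor
  · rintro ⟨G, d, w, hG, rfl⟩
    exact ⟨G, d, w, curve_iff.1 hG, rfl⟩
  · rintro ⟨G, d, w, hG, rfl⟩
    exact ⟨G, d, w, curve_iff.2 hG, rfl⟩

theorem cone_eq {n : ℕ} (P : Fin n → Fin 2 → ℂ) :
    curvCone P = Pool.Agent.R355.ConeAct.curvCone P := by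
  unfold curvCone Pool.Agent.R355.ConeAct.curvCone
  rw [classes_eq]

theorem Sharp.props {L : List ℝ} {c : ℝ} (h : Sharp L c) :
    0 < c ∧ (∀ t ∈ L, 0 ≤ t) ∧ (L.map fun t => t ^ 2).sum = c ^ 2 ∧ Pool.Agent.H350R3.NB.Nf ℂ L.get c := by
  induction h with
  | three j k r a x hj hx hxa hk hsq hm =>
    obtain ⟨h1, h2, h3, h4⟩ :=
      (NonuniformIrrationalRays.sharp_three hj hx hxa hk hsq hm).props
    exact ⟨h1, fun t ht => (h2 t ht).le, h3, h4⟩
  | line =>
    refine ⟨one_pos, by simp, by simp, Pool.Agent.H350R3.GR.nf_point _ (fun i => ?_) (fun a b => ?_)⟩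
    · fin_cases i
      rfl
    · exact Subsingleton.elim (α := Fin 1) a b
  | pencil m hm =>
    obtain ⟨r, rfl⟩ : ∃ r, m = r + 8 := ⟨m - 8, by omega⟩
    have e1 : (((r + 8 : ℕ) : ℝ)) - 4 = (r : ℝ) + 4 := by push_cast; ring
    have e2 : (((r + 8 : ℕ) : ℝ)) + 4 = (r : ℝ) + 12 := by push_cast; ring
    rw [e1, e2]
    refine ⟨by positivity, ?_, ?_, Pool.Agent.H902.conic_list r⟩
    · intro t ht
      rcases List.mem_cons.1 ht with rfl | ht
      · positivity
      · rw [(List.mem_replicate.1 ht).2]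
        norm_num
    · simp
      ring
  | perm L L' c hp _ ih =>
    obtain ⟨h1, h2, h3, h4⟩ := ih
    refine ⟨h1, fun t ht => h2 t (hp.mem_iff.2 ht), ?_, Pool.Agent.H902.nf_perm hp h4⟩
    rw [← h3]
    exact (hp.map _).symm.sum_eq
  | zero L c _ ih =>
    obtain ⟨h1, h2, h3, h4⟩ := ih
    refine ⟨h1, ?_, ?_, Pool.Agent.H902.zero_nf h4⟩
    · intro t ht
      rcases List.mem_cons.1 ht with rfl | ht
      · exact le_rfl
      · exact h2 t ht
    · simpa using h3
  | scale a c L ha _ ih =>
    obtain ⟨h1, h2, h3, h4⟩ := ih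
    refine ⟨mul_pos ha h1, ?_, ?_, Pool.Agent.H350R3.GR.nf_list_scale ha h4⟩
    · intro t ht
      obtain ⟨u, hu, rfl⟩ := List.mem_map.1 ht
      exact mul_nonneg ha.le (h2 u hu)
    · rw [NonuniformIrrationalRays.sum_sq_mul, h3, mul_pow]
  | glue c w L L' hw _ _ ih ih' =>
    obtain ⟨h1, h2, h3, h4⟩ := ih
    obtain ⟨h1', h2', h3', h4'⟩ := ih'
    have hL : ∀ t ∈ L, 0 ≤ t := fun t ht => h2 t (List.mem_cons_of_mem _ ht)
    refine ⟨h1, ?_, ?_, Pool.Agent.H902.nf_cons_glue hL hw h4 h4'⟩
    · intro t ht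
      rcases List.mem_append.1 ht with ht | ht
      · exact h2' t ht
      · exact hL t ht
    · rw [List.map_append, List.sum_append, h3', ← h3]
      simp
  | cremona x y z c L _ k1 k2 k3 ih =>
    obtain ⟨h1, h2, h3, h4⟩ := ih
    have hL : ∀ t ∈ L, 0 ≤ t := fun t ht => h2 t (by simp [ht])
    have hx := h2 x (by simp)
    have hy := h2 y (by simp)
    have hz := h2 z (by simp)
    have hS : 0 ≤ (L.map fun t => t ^ 2).sum :=
      List.sum_nonneg fun t ht => by
        obtain ⟨u, -, rfl⟩ := List.mem_map.1 ht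
        exact sq_nonneg u
    simp only [List.map_cons, List.sum_cons] at h3
    refine ⟨?_, ?_, ?_, Pool.Agent.H902.nf_cremona h2 k1 k2 k3 h4⟩
    · by_contra hcon
      push Not at hcon
      have hxc : x ≤ c := by nlinarith
      have e1 : c = x := by linarith
      have e2 : c - y - z = 0 := by linarith
      have e3 : y ^ 2 + z ^ 2 ≤ 0 := by
        rw [← e1] at h3
        nlinarith
      have e4 : y = 0 := by nlinarith [sq_nonneg y, sq_nonneg z]
      have e5 : z = 0 := by nlinarith [sq_nonneg y, sq_nonneg z]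
      rw [e4, e5] at e2
      linarith
    · intro t ht
      simp only [List.mem_cons] at ht
      rcases ht with rfl | rfl | rfl | ht
      · exact k1
      · exact k2
      · exact k3
      · exact hL t ht
    · simp only [List.map_cons, List.sum_cons]
      linear_combination h3

theorem result (n : ℕ) :
    ∃ f : ℕ → MvPolynomial (Fin n × Fin 2) ℂ, (∀ k, f k ≠ 0) ∧
      ∀ P : Fin n → Fin 2 → ℂ,
        (∀ k, MvPolynomial.eval (fun q : Fin n × Fin 2 => P q.1 q.2) (f k) ≠ 0) →
        -- (1) the planes spanned by `H - E p` and `K_T`, and their images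
        (∀ (T : Finset (Fin n)) (p : Fin n) (x y : ℝ), 9 ≤ T.card → p ∈ T →
          0 ≤ (pl T p x y).1 → 0 ≤ dot (pl T p x y) (pl T p x y) →
          ∀ D, Carries (pl T p x y) D →
            dot D D = dot (pl T p x y) (pl T p x y) ∧ ∀ z ∈ curvCone P, 0 ≤ dot D z) ∧
        -- (2) irreducible curves
        (∀ (G : MvPolynomial (Fin 3) ℂ) (d : ℕ) (w : Fin n → ℕ), Curve P G d w →
          (∀ (T : Finset (Fin n)) (p : Fin n), 9 ≤ T.card → p ∈ T →
            4 * (∑ i ∈ T, (w i : ℝ) - 3 * d) ≤ ((T.card : ℝ) - 9) * ((d : ℝ) - w p)) ∧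
          (9 ≤ n → ∀ (p : Fin n) (F : ℝ × (Fin n → ℝ)), Carries (pl Finset.univ p 1 0) F →
            4 * kap ((d : ℝ), fun i => (w i : ℝ)) ≤
              ((n : ℝ) - 9) * dot F ((d : ℝ), fun i => (w i : ℝ)))) ∧
        -- (3) rays
        ∀ (L : List ℝ) (c : ℝ), Sharp L c → ∀ g : Fin L.length → Fin n, Function.Injective g →
          ∀ D, Carries (rayClass L c g) D → dot D D = 0 ∧ ∀ z ∈ curvCone P, 0 ≤ dot D z := by
  classical
  obtain ⟨f1, hf1, hgen⟩ := Pool.Agent.TH167.SH.exists_fam (Fin n × Fin 2)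
  obtain ⟨f2, hf2, hf2'⟩ := Pool.Agent.H350R3.GR.exists_conds_all (K := ℂ) n
  refine ⟨fun k => f1 k * f2 k, fun k => mul_ne_zero (hf1 k) (hf2 k), fun P hPk => ?_⟩
  have hP1 : ∀ k, MvPolynomial.eval (fun q : Fin n × Fin 2 => P q.1 q.2) (f1 k) ≠ 0 := fun k => by
    have := hPk k
    rw [map_mul] at this
    exact left_ne_zero_of_mul this
  have hP2 : ∀ k, MvPolynomial.eval (fun q : Fin n × Fin 2 => P q.1 q.2) (f2 k) ≠ 0 := fun k => by
    have := hPk k
    rw [map_mul] at this
    exact right_ne_zero_of_mul this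
  have hP : Pool.Agent.X157.W.Gen P := (hgen _).1 hP1
  rw [cone_eq]
  refine ⟨?_, ?_, ?_⟩
  · intro T p x y hT hp h1 h2 D hD
    have h3 := Pool.Agent.R355.ConeAct.nef_carries hP hD (Pool.Agent.H902.pl_nef hP hT hp h1 h2)
    exact ⟨h3.2.1, h3.1⟩
  · intro G d w hG
    exact Pool.Agent.H902.curves hP (curve_iff.1 hG)
  · intro L c hL g hg D hD
    obtain ⟨h1, h2, h3, h4⟩ := hL.props
    exact Pool.Agent.H902.rays hf2' hP2 hP h2 h3 h4 hg hD

end Pool.Agent.Results.MP_309968_ag.PencilPlanes
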