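import Mathlib
import Pool.Graph.R_seed8.Results.MP_309968_ag.BoundaryRays
import Pool.Agent.H879.Nef.Ample

set_option autoImplicit false

/-!
# Ample cores with arbitrary small coefficients at any number of further points

Let `p_1, …, p_n` be very general points of the complex projective plane and `X` the blow-up. Let `T`
be ANY set of the points (the core), `D_0 = c H - ∑_{i ∈ T} x_i E_i` ANY class with real
coefficients at these points which is ample, more precisely `D_0 C ≥ ρ H C` for all curves `C`, where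
`ρ > 0` (`D_0 - ρ H` is nef; for an ample real class `D_0` there is such a `ρ`). Let
`D = D_0 - ∑_{i ∉ T} x_i E_i` with ARBITRARY coefficients `0 ≤ x_i ≤ m` at the other points, in any
number.

The conjecture (Q1) predicts that `D` is nef if `D ^ 2 ≥ 0` and `m` is small compared to the core.
Here it is proved that for every `0 < δ ≤ 1`, `D` is nef if `D ^ 2 ≥ δ m ^ 2` and
`10 ^ 24 √κ m ≤ ρ δ ^ 10`, where `κ ≥ 9` and `κ ≥ |T|`.

So `D ^ 2 ≥ m ^ 2 (10 ^ 24 √κ m / ρ) ^ (1 / 10)` suffices (if `10 ^ 24 √κ m ≤ ρ`): near the ample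
classes `D_0` of the blow-up at `T`, the distance of the nef cone from the positive cone is at most
`C m ^ (21 / 10)`, where `m` is the largest of the new coefficients and `C` depends only on `D_0`. The
total volume `∑ x_i ^ 2` of the new points is close to `D_0 ^ 2`, their number tends to infinity, and
no relation between the `x_i` is supposed. This is the analogue, for the very general complex
structure, of the stability of symplectic packings by small unequal balls, up to the error
`δ m ^ 2`, less than the volume of one ball. The starting library has `D ^ 2 ≥ m ^ 2 / 7` if `T` has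
at most nine elements and `D` is nonnegative on the `(-1)`-curves (TenthCoefficient), much smaller
bounds if all coefficients, also the `x_i` for `i ∈ T`, are small compared to `c`
(SexticDistance, CoefficientIntervals), and theorems for cores on chains of curves, three-point
cores, and for coefficients which are unions of families of many equal values.

The proof. Let `G` be an irreducible curve with `D G < 0`. Then `G` is close to a multiple `t D`:
`∑ (u_i - t x_i) ^ 2 + t ^ 2 D ^ 2 < - G ^ 2`. Let `b` be the largest multiplicity of `G` outside of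
`T`. If `G` is not a `(-1)`-curve then Xu's inequality gives `t ^ 2 D ^ 2 < b ≤ 2 t m`, and so
`b ≤ 4 / δ`, and `t ρ` is large compared to a high power of `b`. Therefore the core of the class of
`G` is `t D_0` up to an error which is small compared to `t ρ`; it is nonspecial by the vanishing
theorem for nef and big classes, and the small points, of multiplicities at most `b`, impose the
expected number of conditions on it (MP_1dafdd_ag.SmallPointsOnPositiveCores). So the class of `G` has
the expected dimension zero, a contradiction. If `G` is a `(-1)`-curve the same argument is applied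
to `2 G`, a class with `χ = 0`: so `D` is nonnegative on the `(-1)`-curves, too, and no assumption on
them is needed.
-/

namespace Pool.Agent.Results.MP_309968_ag.SmallPointsOnAmpleCores

open Pool.Agent.W609.CR (Van Ord aff)
open Pool.Agent.TH167.SH (van_le exists_fam ip kk)
open Pool.Agent.Results.MP_309968_ag.BoundaryRays (MultGE curveClasses curvCone cone_le)
open Pool.Agent.K4H28.TC

/-- the two descriptions of multiplicities -/
theorem mult_iff {n : ℕ} {p : Fin n → Fin 2 → ℂ} {F : MvPolynomial (Fin 3) ℂ} {e : ℕ}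
    (hF : F.IsHomogeneous e) (m : Fin n → ℕ) :
    (∀ i, MultGE (p i) F (m i)) ↔ ∀ i, Van (aff (p i)) (m i) F := by
  have h1 : (∀ i, Van (aff (p i)) (m i) F) ↔
      F ∈ Pool.Agent.W609.CR.VS (fun j => aff (p j)) m e := by
    rw [Pool.Agent.TH167.SH.mem_VS]
    exact ⟨fun h => ⟨hF, h⟩, fun h => h.2⟩
  rw [h1, Pool.Agent.W609.CR.vs_eq_forms, Pool.Agent.H248R5.mem_forms]
  have h2 : ∀ i, Pool.Agent.H248R5.tau (p i) F ∈ (MvPolynomial.idealOfVars (Fin 2) ℂ) ^ (m i) ↔
      MultGE (p i) F (m i) := by
    intro i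
    rw [MvPolynomial.mem_pow_idealOfVars_iff']
    constructor
    · intro h s hs
      by_contra hne
      refine (MvPolynomial.mem_support_iff.1 hs) (h s ?_)
      rw [Finsupp.degree_eq_sum, Fin.sum_univ_two]
      omega
    · intro h s hs
      by_contra hne
      have h3 := h s (MvPolynomial.mem_support_iff.2 hne)
      rw [Finsupp.degree_eq_sum, Fin.sum_univ_two] at hs
      omega
  constructor
  · exact fun h => ⟨hF, fun i => (h2 i).2 (h i)⟩
  · exact fun h i => (h2 i).1 (h.2 i)

theorem mult_iff1 {a : Fin 2 → ℂ} {F : MvPolynomial (Fin 3) ℂ} {e : ℕ}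
    (hF : F.IsHomogeneous e) (m : ℕ) : MultGE a F m ↔ Van (aff a) m F := by
  have h := mult_iff (p := fun _ : Fin 1 => a) hF fun _ => m
  exact ⟨fun h1 => h.1 (fun _ => h1) 0, fun h1 => h.2 (fun _ => h1) 0⟩

/-- The class of an irreducible curve belongs to the closed cone. -/
theorem mem_cone {n : ℕ} {p : Fin n → Fin 2 → ℂ} {F : MvPolynomial (Fin 3) ℂ} {e : ℕ}
    {u : Fin n → ℕ} (h1 : Irreducible F) (h2 : F.IsHomogeneous e)
    (h3 : ∀ j, Ord (aff (p j)) (u j) F) : ((e : ℝ), fun i => (u i : ℝ)) ∈ curvCone p := by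
  unfold curvCone
  refine subset_closure (Submodule.subset_span (Or.inl ⟨F, e, u, h2, h1, fun i => ?_, rfl⟩))
  exact ⟨(mult_iff1 h2 _).2 (h3 i).1, fun h => (h3 i).2 ((mult_iff1 h2 _).1 h)⟩

/-- From forms to the closed cone. -/
theorem cone_of {n : ℕ} {p : Fin n → Fin 2 → ℂ} {x : Fin n → ℝ} {c : ℝ} (hx0 : ∀ i, 0 ≤ x i)
    (h : ∀ (F : MvPolynomial (Fin 3) ℂ) (e : ℕ) (m : Fin n → ℕ), F.IsHomogeneous e → F ≠ 0 →
      (∀ i, MultGE (p i) F (m i)) → ∑ i, x i * (m i : ℝ) ≤ c * e) :
    ∀ z ∈ curvCone p, 0 ≤ c * z.1 - ∑ i, x i * z.2 i := by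
  intro z hz
  have h1 := cone_le (p := p) (l := x) (g := id) (c := c) hx0
    fun F e m hF _ hF0 hm => by
      have h1 := h F e m hF hF0 hm
      simp only [id]
      linarith
  have h2 := h1 z hz
  simp only [id] at h2
  linarith

/-- **Ample cores with arbitrary small coefficients at any number of further points.** -/
theorem result (n : ℕ) (hn : 4 ≤ n) :
    ∃ f : ℕ → MvPolynomial (Fin n × Fin 2) ℂ, (∀ k, f k ≠ 0) ∧
      ∀ p : Fin n → Fin 2 → ℂ,
        (∀ k, MvPolynomial.eval (fun q : Fin n × Fin 2 => p q.1 q.2) (f k) ≠ 0) →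
        ∀ (x : Fin n → ℝ) (c ρ m δ : ℝ) (T : Finset (Fin n)) (κ : ℕ), (∀ i, 0 ≤ x i) →
          9 ≤ κ → T.card ≤ κ → 0 < ρ →
          (∀ z ∈ curvCone p, ρ * z.1 ≤ c * z.1 - ∑ i ∈ T, x i * z.2 i) →
          0 ≤ m → (∀ i, i ∉ T → x i ≤ m) → 0 < δ → δ ≤ 1 →
          δ * m ^ 2 ≤ c ^ 2 - ∑ i, x i ^ 2 → 10 ^ 24 * √(κ : ℝ) * m ≤ ρ * δ ^ 10 →
          ∀ z ∈ curvCone p, 0 ≤ c * z.1 - ∑ i, x i * z.2 i := by
  classical
  obtain ⟨f, hf, h⟩ := exists_fam (Fin n × Fin 2)
  refine ⟨f, hf, fun p hp => ?_⟩
  have hP := (h fun q => p q.1 q.2).1 hp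
  intro x c ρ m δ T κ hx0 hκ hTκ hρ hcore hm0 hm hδ0 hδ1 hq hsmall
  obtain ⟨r, rfl⟩ : ∃ r, n = r + 4 := ⟨n - 4, by omega⟩
  refine cone_of hx0 fun F e w hF hF0 hw => ?_
  refine form_of_irr hx0 ?_ F hF0 e w hF ((mult_iff hF w).1 hw)
  intro G d u h1 h2 h3
  refine H879.Nef.nef_core hP hx0 hκ hTκ hρ (fun F e v hF0 hF hv => ?_) hm0 hm hδ0 hδ1 hq hsmall
    h1 h2 h3
  have hT : ∀ z : Fin (r + 4) → ℝ, ∑ i, (if i ∈ T then x i else 0) * z i = ∑ i ∈ T, x i * z i := by
    intro z
    rw [← Finset.sum_filter_add_sum_filter_not Finset.univ (fun i => i ∈ T)]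
    have e1 : ∑ i ∈ Finset.univ.filter (fun i => ¬ i ∈ T),
        (if i ∈ T then x i else 0) * z i = 0 := Finset.sum_eq_zero fun i hi => by
      rw [if_neg (Finset.mem_filter.1 hi).2, zero_mul]
    rw [e1, add_zero]
    refine Finset.sum_congr (by ext i; simp) fun i hi => ?_
    rw [if_pos (by simpa using hi)]
  rw [← hT fun i => (v i : ℝ)]
  refine form_of_irr (p := p) (fun i => ?_) (fun G' e' u' g1 g2 g3 => ?_) F hF0 e v hF hv
  · split_ifs
    · exact hx0 i
    · exact le_rfl
  · rw [hT fun i => (u' i : ℝ)]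
    have h4 := hcore _ (mem_cone g1 g2 g3)
    simp only at h4
    linarith

end Pool.Agent.Results.MP_309968_ag.SmallPointsOnAmpleCores
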