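import Mathlib
import Pool.Graph.R_seed8.Results.MP_309968_ag.BoundaryRays
import Pool.Agent.H879.Nef.Core

set_option autoImplicit false

/-!
# The nef cone is round up to `c m ^ 3 / V`, where `m` is the tenth coefficient

Let `p_1, …, p_n`, `n ≥ 4`, be very general points of the complex projective plane, `X` the blow-up,
and let `D = c H - ∑ x_i E_i` be a class with real coefficients `x_i ≥ 0` in standard form
(`x_i + x_j + x_k ≤ c`), with `D ^ 2 ≥ 0`. Let `T` be a set of at most nine indices, for example those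
of the nine largest coefficients, which are ARBITRARY; let `x_i ≤ m` for `i ∉ T`, and let
`V = c ^ 2 - ∑_{i ∈ T} x_i ^ 2` be the self-intersection of the core `c H - ∑_{i ∈ T} x_i E_i`.

The conjecture (Q1) predicts that `D` is nef. This is proved here if
(a) `V D ^ 2 ≥ 4 * 10 ^ 8 c m ^ 3`, or
(b) `c (D ^ 2) ^ 13 ≥ 4 * 10 ^ 37 m ^ 27`.

So `D` is nef as soon as `D ^ 2 ≥ m ^ 2 min (4 * 10 ^ 8 c m / V, (4 * 10 ^ 37 m / c) ^ (1 / 13))`. The
starting library has the bounds `m ^ 2 / 7` (TenthCoefficient) and `2 m A / c`, `A = V - D ^ 2`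
(StandardNegativeDegree) for the same classes; the last one is good if `V` is small compared to `c m`,
(a) is good if `V` is large compared to `c m`, and (b) covers the middle: now for arbitrary large
coefficients at nine points, and arbitrary small ones at any number of other points, the distance of
the nef cone from the positive cone is `o (m ^ 2)` when `m / c` tends to zero.

For instance, let `A` be any fixed standard class at nine of the points with `A ^ 2 = V > 0`. At other
very general points and for arbitrary weights `0 ≤ b_j ≤ 1` the class `A - ε ∑ b_j E_j` is nef (if it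
is standard) as soon as `V ≥ ε ^ 2 (∑ b_j ^ 2 + 4 * 10 ^ 8 c ε / V)`, where `V ≥ ε ^ 2 ∑ b_j ^ 2` is
necessary.

The proof. A negative curve `G` with `D G < 0` is close to a multiple `t D`, more precisely
`∑ (u_i - t x_i) ^ 2 + t ^ 2 D ^ 2 < - G ^ 2`. It may be supposed standard. Xu's inequality
`- G ^ 2 ≤ u_j` shows that the largest multiplicity `b` outside of `T` satisfies
`t ^ 2 D ^ 2 < b ≤ 25 t m / 16`. On the other hand the degree `e = t c` of a standard negative curve
whose tenth multiplicity is `b` is less than `10 ^ 31 (b + 1) ^ 14`, and its nine largest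
multiplicities nearly exhaust the degree: `e ^ 2 - ∑_T u_i ^ 2 < 6 * 10 ^ 7 (b + 1) ^ 2 (e + b + 2)`.
-/

namespace Pool.Agent.Results.MP_309968_ag.SmallTenthCoefficient

open Pool.Agent.W609.CR (Van Ord aff)
open Pool.Agent.TH167.SH (van_le exists_fam ip kk)
open Pool.Agent.Results.MP_309968_ag.BoundaryRays (MultGE curveClasses curvCone cone_le)
open Pool.Agent.K4H28.TC

/-- the two descriptions of multiplicities -/
theorem mult_iff {n : ℕ} {p : Fin n → Fin 2 → ℂ} {F : MvPolynomial (Fin 3) ℂ} {e : ℕ}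
    (hF : F.IsHomogeneous e) (m : Fin n → ℕ) :
    (∀ i, MultGE (p i) F (m i)) ↔ ∀ i, Van (aff (p i)) (m i) F := by
  have h1 : (∀ i, Van (aff (p i)) (m i) F) ↔
      F ∈ Pool.Agent.W609.CR.VS (fun j => aff (p j)) m e := by
    rw [Pool.Agent.TH167.SH.mem_VS]
    exact ⟨fun h => ⟨hF, h⟩, fun h => h.2⟩
  rw [h1, Pool.Agent.W609.CR.vs_eq_forms, Pool.Agent.H248R5.mem_forms]
  have h2 : ∀ i, Pool.Agent.H248R5.tau (p i) F ∈ (MvPolynomial.idealOfVars (Fin 2) ℂ) ^ (m i) ↔
      MultGE (p i) F (m i) := by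
    intro i
    rw [MvPolynomial.mem_pow_idealOfVars_iff']
    constructor
    · intro h s hs
      by_contra hne
      refine (MvPolynomial.mem_support_iff.1 hs) (h s ?_)
      rw [Finsupp.degree_eq_sum, Fin.sum_univ_two]
      omega
    · intro h s hs
      by_contra hne
      have h3 := h s (MvPolynomial.mem_support_iff.2 hne)
      rw [Finsupp.degree_eq_sum, Fin.sum_univ_two] at hs
      omega
  constructor
  · exact fun h => ⟨hF, fun i => (h2 i).2 (h i)⟩
  · exact fun h i => (h2 i).1 (h.2 i)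

/-- From forms to the closed cone. -/
theorem cone_of {n : ℕ} {p : Fin n → Fin 2 → ℂ} {x : Fin n → ℝ} {c : ℝ} (hx0 : ∀ i, 0 ≤ x i)
    (h : ∀ (F : MvPolynomial (Fin 3) ℂ) (e : ℕ) (m : Fin n → ℕ), F.IsHomogeneous e → F ≠ 0 →
      (∀ i, MultGE (p i) F (m i)) → ∑ i, x i * (m i : ℝ) ≤ c * e) :
    ∀ z ∈ curvCone p, 0 ≤ c * z.1 - ∑ i, x i * z.2 i := by
  intro z hz
  have h1 := cone_le (p := p) (l := x) (g := id) (c := c) hx0
    fun F e m hF _ hF0 hm => by
      have h1 := h F e m hF hF0 hm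
      simp only [id]
      linarith
  have h2 := h1 z hz
  simp only [id] at h2
  linarith

/-- **The nef cone is round up to `c m ^ 3 / V`, where `m` is the tenth coefficient.** -/
theorem result (n : ℕ) (hn : 4 ≤ n) :
    ∃ f : ℕ → MvPolynomial (Fin n × Fin 2) ℂ, (∀ k, f k ≠ 0) ∧
      ∀ p : Fin n → Fin 2 → ℂ,
        (∀ k, MvPolynomial.eval (fun q : Fin n × Fin 2 => p q.1 q.2) (f k) ≠ 0) →
        ∀ (x : Fin n → ℝ) (c m : ℝ) (T : Finset (Fin n)), (∀ i, 0 ≤ x i) →
          (∀ i j k, i ≠ j → i ≠ k → j ≠ k → x i + x j + x k ≤ c) →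
          ∑ i, x i ^ 2 ≤ c ^ 2 → T.card ≤ 9 → (∀ i, i ∉ T → x i ≤ m) →
          (4 * 10 ^ 8 * c * m ^ 3 ≤ (c ^ 2 - ∑ i ∈ T, x i ^ 2) * (c ^ 2 - ∑ i, x i ^ 2) ∨
            4 * 10 ^ 37 * m ^ 27 ≤ c * (c ^ 2 - ∑ i, x i ^ 2) ^ 13) →
          ∀ z ∈ curvCone p, 0 ≤ c * z.1 - ∑ i, x i * z.2 i := by
  classical
  obtain ⟨f, hf, h⟩ := exists_fam (Fin n × Fin 2)
  refine ⟨f, hf, fun p hp => ?_⟩
  have hP := (h fun q => p q.1 q.2).1 hp
  intro x c m T hx0 hstd hD0 hT hm hD
  obtain ⟨r, rfl⟩ : ∃ r, n = r + 4 := ⟨n - 4, by omega⟩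
  have hc := std_c hx0 hstd
  have hsmall : H879.Nef.Small (c ^ 2 - ∑ i ∈ T, x i ^ 2) (c ^ 2 - ∑ i, x i ^ 2) c m := by
    rcases hD with h1 | h1
    · left
      refine le_trans (le_of_eq ?_) h1
      norm_num
    · exact Or.inr h1
  refine cone_of hx0 fun F e w hF hF0 hw => ?_
  refine form_of_irr hx0 ?_ F hF0 e w hF ((mult_iff hF w).1 hw)
  intro G d u h1 h2 h3
  by_cases hne : ip d u d u = -1 ∧ kk d u = 1
  · refine std_nonneg hx0 hstd (fun i => van_le h1.ne_zero h2 (h3 i).1) ?_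
    have h4 := hne.2
    unfold kk at h4
    have h5 : ((∑ i, u i : ℕ) : ℤ) ≤ ((3 * d : ℕ) : ℤ) := by
      push_cast
      linarith
    exact_mod_cast h5
  · exact H879.Nef.std hP hc hx0 hstd hT hm (by linarith) hsmall d u ⟨⟨G, h1, h2, h3⟩, hne⟩

end Pool.Agent.Results.MP_309968_ag.SmallTenthCoefficient
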